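import Mathlib

namespace Pool.Agent.Results.MP_6967ea_co.NotInacc
open Cardinal Set Relation Function

universe u
variable {V : Type u}

/-- `D` is an orientation of `G`. -/
def IsOr (G : SimpleGraph V) (D : V → V → Prop) : Prop :=
  (∀ a b, D a b → G.Adj a b) ∧ ∀ a b, G.Adj a b → (D a b ↔ ¬ D b a)

/-- No directed closed walk of `D` is monochromatic. -/
def Proper {T : Type u} (D : V → V → Prop) (col : V → T) : Prop :=
  ∀ v, ¬ TransGen (fun a b => D a b ∧ col a = col b) v v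

/-- The dichromatic number. -/
noncomputable def chi (D : V → V → Prop) : Cardinal.{u} :=
  sInf {c | ∃ (T : Type u) (col : V → T), #T = c ∧ Proper D col}

def res (D : V → V → Prop) (X : Set V) : V → V → Prop := fun a b => a ∈ X ∧ b ∈ X ∧ D a b

lemma mo {r s : V → V → Prop} {a b : V} (q : TransGen r a b) (h : ∀ a b, r a b → s a b) :
    TransGen s a b := by
  induction q with
  | single q => exact .single (h _ _ q)
  | tail _ q ih => exact ih.tail (h _ _ q)

lemma le {T : Type u} {D : V → V → Prop} {col : V → T} (h : Proper D col) : chi D ≤ #T :=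
  csInf_le' ⟨T, col, rfl, h⟩

lemma opt {D : V → V → Prop} (h : ∀ a, ¬ D a a) :
    ∃ (T : Type u) (col : V → T), #T = chi D ∧ Proper D col :=
  csInf_mem (s := {c | ∃ (T : Type u) (col : V → T), #T = c ∧ Proper D col})
    ⟨_, V, id, rfl, fun v q => by
      obtain ⟨b, -, h1, rfl⟩ := TransGen.tail'_iff.1 q
      exact h _ h1⟩

lemma ex {D : V → V → Prop} (h : ∀ a, ¬ D a a) {c} (hc : chi D ≤ c) :
    ∃ col : V → c.out, Proper D col := by
  obtain ⟨T, col, e, hp⟩ := opt h
  obtain ⟨g⟩ : Nonempty (T ↪ c.out) := by rw [← le_def, e]; simpa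
  exact ⟨g ∘ col, fun v q => hp v (mo q fun a b h => ⟨h.1, g.injective h.2⟩)⟩

lemma un {D : V → V → Prop} (h : ∀ a, ¬ D a a) {T : Type u} [Nonempty T] (X : T → Set V) {c}
    (hc : ∀ t, chi (res D (X t)) ≤ c) {Y : Set V} (hY : ∀ v ∈ Y, ∃ t, v ∈ X t) :
    chi (res D Y) ≤ #T * c := by
  choose col hcol using fun t => ex (fun a q => h a q.2.2) (hc t)
  let j : V → T := fun v => Classical.epsilon fun t => v ∈ X t
  have hj : ∀ v ∈ Y, v ∈ X (j v) := fun v q => Classical.epsilon_spec (hY v q)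
  refine (le (col := fun v => (j v, col (j v) v)) fun v q => hcol (j v) v ?_).trans (by simp)
  suffices ∀ b, TransGen (fun a b => res D Y a b ∧ (j a, col (j a) a) = (j b, col (j b) b)) v b →
      j b = j v ∧ TransGen (fun a b => res D (X (j v)) a b ∧ col (j v) a = col (j v) b) v b from
    (this v q).2
  intro b q
  have s : ∀ a b, j a = j v → res D Y a b ∧ (j a, col (j a) a) = (j b, col (j b) b) →
      j b = j v ∧ res D (X (j v)) a b ∧ col (j v) a = col (j v) b := fun a b e ⟨r, p⟩ => by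
    obtain ⟨p1, p2⟩ := Prod.mk.inj p
    have := hj a r.1
    have := hj b r.2.1
    have := r.2.2
    rw [← p1] at *
    rw [e] at *
    exact ⟨rfl, ⟨‹_›, ‹_›, ‹_›⟩, p2⟩
  induction q with
  | single q => exact ⟨(s _ _ rfl q).1, .single (s _ _ rfl q).2⟩
  | tail _ q ih => exact ⟨(s _ _ ih.1 q).1, ih.2.tail (s _ _ ih.1 q).2⟩

lemma fam {I : Type u} [LinearOrder I] [WellFoundedLT I] {κ : Cardinal.{u}} (hκ : ℵ₀ ≤ κ)
    (hI : ∀ i : I, #(Iio i) < κ.ord.cof) (hk : #I < κ ∨ (κ = ℵ₀ ∧ Countable I))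
    (f : I → Set V → Cardinal.{u})
    (U : ∀ k (T : Type u) [Nonempty T] (X : T → Set V) c, (∀ t, f k (X t) ≤ c) →
      ∀ Y : Set V, (∀ v ∈ Y, ∃ t, v ∈ X t) → f k Y ≤ #T * c)
    (C : ∀ k, ∃ (T : Type u) (col : V → T), #T < κ ∧ ∀ t, f k {v | col v = t} ≤ 1)
    (E : ∀ k, f k ∅ ≤ 1) (S : ∀ c < κ, ∃ k, c < f k univ) (l : I → Cardinal.{u})
    (hl : ∀ i, l i < κ) :
    ∃ W : I → Set V, Pairwise (Disjoint on W) ∧ ∀ i, ∃ k, l i < f k (W i) := by
  have h1 : 1 < κ := one_lt_aleph0.trans_le hκ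
  have M : ∀ k X Y, Y ⊆ X → f k Y ≤ f k X := fun k X Y h => by
    simpa using U k PUnit (fun _ => X) _ (fun _ => le_rfl) Y fun v q => ⟨⟨⟩, h q⟩
  by_cases A : ∀ c < κ, ∃ Y, (∃ k, c < f k Y) ∧ ∃ b < κ, ∀ k, f k Y ≤ b
  · choose! Y hY b hb hb' using A
    let ν : I → Cardinal.{u} := WellFoundedLT.fix fun i r =>
      (#(Iio i) + 1) * max (l i) (⨆ j : Iio i, b (r j j.2))
    have e : ∀ i, ν i = (#(Iio i) + 1) * max (l i) (⨆ j : Iio i, b (ν j)) :=
      WellFoundedLT.fix_eq _
    have lt : ∀ i, ν i < κ := fun i => by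
      induction i using WellFoundedLT.induction with
      | ind i ih =>
        rw [e]
        exact mul_lt_of_lt hκ (add_lt_of_lt hκ ((hI i).trans_le (Ordinal.cof_ord_le _)) h1)
          (max_lt (hl i) (iSup_lt_of_lt_cof_ord (hI i) fun j => hb _ (ih j j.2)))
    refine ⟨fun i => Y (ν i) \ ⋃ j : Iio i, Y (ν j), fun i j h => ?_, fun i => ?_⟩
    · wlog q : i < j generalizing i j
      · exact (this _ _ h.symm (h.lt_or_gt.resolve_left q)).symm
      exact disjoint_left.2 fun v a b => b.2 (mem_iUnion.2 ⟨⟨i, q⟩, a.1⟩)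
    · obtain ⟨k, hk⟩ := hY _ (lt i)
      refine ⟨k, lt_of_not_ge fun q => hk.not_ge ?_⟩
      refine le_of_le_of_eq ?_ (e i).symm
      rw [← mk_option]
      refine U k _ (fun o : Option (Iio i) =>
        o.elim (Y (ν i) \ ⋃ j : Iio i, Y (ν j)) fun j => Y (ν j)) _ ?_ _ ?_
      · rintro (_ | j)
        · exact q.trans (le_max_left _ _)
        · exact (hb' _ (lt j) k).trans ((le_ciSup (f := fun j : Iio i => b (ν j))
            bddAbove_of_small j).trans (le_max_right _ _))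
      · intro v hv
        by_cases r : v ∈ ⋃ j : Iio i, Y (ν j)
        · obtain ⟨j, r⟩ := mem_iUnion.1 r
          exact ⟨some j, r⟩
        · exact ⟨none, hv, r⟩
  push Not at A
  obtain ⟨c, hc, A⟩ := A
  let P := fun X => ∀ b < κ, ∃ k, b < f k X
  have N : ∀ X, ¬ P X → ∀ k, f k X ≤ c := fun X h k => not_lt.1 fun q => h (A X ⟨k, q⟩)
  have B : ∀ X k, ∃ (T : Type u) (Z : T → Set V), Pairwise (Disjoint on Z) ∧
      (∀ t, Z t ⊆ X ∧ P (Z t)) ∧ f k X ≤ (#T + 1) * max c 1 := fun X k => by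
    obtain ⟨T, col, hT, h⟩ := C k
    let Z := fun t => X ∩ {v | col v = t}
    refine ⟨{t // P (Z t)}, fun t => Z t, fun s t q => disjoint_left.2 fun v a b =>
      q (Subtype.ext (a.2.symm.trans b.2)), fun t => ⟨inter_subset_left, t.2⟩, ?_⟩
    rw [← mk_option]
    refine U k _ (fun o => o.elim {v ∈ X | ¬ P (Z (col v))} fun t => Z t) _ ?_ _ fun v hv => ?_
    · rintro (_ | t)
      · refine (N _ (fun q => ?_) k).trans (le_max_left _ _)
        obtain ⟨m, hm⟩ := q _ (mul_lt_of_lt hκ (add_lt_of_lt hκ hT h1) (max_lt hc h1))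
        refine hm.not_ge ?_
        rw [← mk_option]
        classical
        refine U m _ (fun o => o.elim ∅ fun t => if P (Z t) then ∅ else Z t) _ ?_ _
          fun v hv => ⟨some (col v), by simpa [hv.2, Z] using hv.1⟩
        rintro (_ | t)
        · exact (E m).trans (le_max_right _ _)
        · by_cases r : P (Z t)
          · simpa [r] using .inr (E m)
          · simpa [r] using .inl (N _ r m)
      · exact ((M _ _ _ inter_subset_right).trans (h t)).trans (le_max_right _ _)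
    · by_cases r : P (Z (col v))
      exacts [⟨some ⟨_, r⟩, hv, rfl⟩, ⟨none, hv, r⟩]
  rcases hk with hk | ⟨rfl, hk⟩
  · obtain ⟨k, hk'⟩ := S _ (mul_lt_of_lt hκ (add_lt_of_lt hκ hk h1) (max_lt hc h1))
    obtain ⟨T, Z, z1, z2, z3⟩ := B univ k
    obtain ⟨g⟩ : Nonempty (I ↪ T) := (le_def _ _).1 <| le_of_not_ge fun q =>
      hk'.not_ge (z3.trans (by gcongr))
    exact ⟨Z ∘ g, z1.comp_of_injective g.injective, fun i => (z2 _).2 _ (hl i)⟩
  · have : ∀ X : {X // P X}, ∃ Y Z : {X // P X}, Y.1 ⊆ X ∧ Z.1 ⊆ X ∧ Disjoint Y.1 Z.1 := by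
      intro X
      obtain ⟨k, hk'⟩ := X.2 _ (mul_lt_of_lt hκ (add_lt_of_lt hκ h1 h1) (max_lt hc h1))
      obtain ⟨T, Z, z1, z2, z3⟩ := B X k
      obtain ⟨s, t, h⟩ : Nontrivial T := one_lt_iff_nontrivial.1 <| lt_of_not_ge fun q =>
        hk'.not_ge (z3.trans (by gcongr))
      exact ⟨⟨_, (z2 s).2⟩, ⟨_, (z2 t).2⟩, (z2 s).1, (z2 t).1, z1 h⟩
    choose Y Z hY hZ hd using this
    let X := fun n => Z^[n] ⟨univ, S⟩
    have an : Antitone fun n => (X n).1 := antitone_nat_of_succ_le fun n => by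
      simpa only [X, iterate_succ_apply'] using hZ _
    obtain ⟨g, hg⟩ := exists_injective_nat I
    refine ⟨fun i => Y (X (g i)), Pairwise.comp_of_injective (r := Disjoint on fun n => (Y (X n)).1)
      (fun i j h => ?_) hg, fun i => (Y _).2 _ (hl i)⟩
    wlog q : i < j generalizing i j
    · exact (this _ _ h.symm (h.lt_or_gt.resolve_left q)).symm
    refine (hd (X i)).mono_right ((hY _).trans ((an q).trans ?_))
    simp only [X, iterate_succ_apply']; rfl

theorem result (G : SimpleGraph V) (κ : Cardinal.{u}) (hκ : ℵ₀ ≤ κ)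
    (hw : ¬ (ℵ₀ < κ ∧ κ.IsRegular ∧ Order.IsSuccLimit κ))
    (D : κ.ord.cof.ord.ToType → V → V → Prop) (hD : ∀ i, IsOr G (D i))
    (hs : ⨆ i, chi (D i) = κ) : ∃ E, IsOr G E ∧ chi E = κ := by
  classical
  by_contra! H
  have lt : ∀ i, chi (D i) < κ := fun i =>
    (hs ▸ le_ciSup (f := fun i => chi (D i)) bddAbove_of_small i).lt_of_ne (H _ (hD i))
  have S : ∀ c < κ, ∃ k, c < chi (D k) := fun c h => by
    by_contra! q
    exact h.not_ge (hs ▸ ciSup_le' q)
  have ir : ∀ i a, ¬ D i a a := fun i a h => ((hD i).1 a a h).ne rfl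
  have ru : ∀ E : V → V → Prop, res E univ = E := fun E => by ext; simp [res]
  obtain ⟨W, w1, w2⟩ := fam hκ (fun i => by simpa using mk_Iio_lt i (by simp)) (by
      rcases hκ.eq_or_lt with rfl | h
      · exact .inr ⟨rfl, mk_le_aleph0_iff.1 (by simp)⟩
      · refine .inl ((mk_ord_toType _).trans_lt ((Ordinal.cof_ord_le _).lt_of_ne fun e => hw
          ⟨h, ⟨hκ, e.ge⟩, (Order.isSuccLimit_iff _).2 ⟨fun m => by simp [m.eq_bot] at h,
            Order.isSuccPrelimit_iff_succ_lt.2 fun c q => ?_⟩⟩))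
        obtain ⟨k, hk⟩ := S c q
        exact (Order.succ_le_of_lt hk).trans_lt (lt k))
    (fun k X => chi (res (D k) X)) (fun k T _ X c h Y hY => un (ir k) X h hY) (fun k => by
      obtain ⟨T, col, e, hp⟩ := opt (ir k)
      exact ⟨T, col, e ▸ lt k, fun t => (le (col := fun _ => PUnit.unit) fun v q =>
        hp v (mo q fun a b h => ⟨h.1.2.2, h.1.1.trans h.1.2.1.symm⟩)).trans (by simp)⟩)
    (fun k => (le (col := fun _ => PUnit.unit) fun v q => by
      obtain ⟨b, -, h1, -⟩ := TransGen.tail'_iff.1 q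
      exact h1.1).trans (by simp)) (by simpa [ru] using S) _ lt
  choose η hη using w2
  obtain ⟨k0, -⟩ := S 0 (aleph0_pos.trans_le hκ)
  let r : V → κ.ord.cof.ord.ToType ⊕ V := fun v => if h : ∃ i, v ∈ W i then .inl h.choose else .inr v
  have hr : ∀ i, ∀ v ∈ W i, r v = .inl i := fun i v h => by
    have q : ∃ i, v ∈ W i := ⟨i, h⟩
    simp only [r, q, dif_pos, Sum.inl.injEq]
    exact by_contra fun n => disjoint_left.1 (w1 n) q.choose_spec h
  let := IsWellOrder.linearOrder (WellOrderingRel (α := κ.ord.cof.ord.ToType ⊕ V))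
  let F : κ.ord.cof.ord.ToType ⊕ V → _ := fun p => p.elim η fun _ => k0
  let E := fun a b => G.Adj a b ∧ (r a < r b ∨ r a = r b ∧ D (F (r a)) a b)
  refine H E ⟨fun a b h => h.1, fun a b h => ?_⟩ (le_antisymm ?_ ?_)
  · have := (hD (F (r a))).2 a b h
    rcases lt_trichotomy (r a) (r b) with q | q | q
    · simp [E, h, h.symm, q, q.not_gt, q.ne']
    · simp [E, h, h.symm, ← q, this]
    · simp [E, h, h.symm, q, q.not_gt, q.ne']
  · choose col hcol using fun k => ex (ir k) (lt k).le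
    refine (le (col := fun v => col (F (r v)) v) fun v q => ?_).trans (by simp)
    have : ∀ b, TransGen (fun a b => E a b ∧ col (F (r a)) a = col (F (r b)) b) v b → r v < r b ∨
        r v = r b ∧ TransGen (fun a b => D (F (r v)) a b ∧
          col (F (r v)) a = col (F (r v)) b) v b := fun b q => by
      induction q with
      | single q =>
        refine q.1.2.imp id fun p => ⟨p.1, .single ⟨p.2, ?_⟩⟩
        have := q.2
        rwa [← p.1] at this
      | tail _ q ih =>
        rcases ih with a | a <;> rcases q.1.2 with b | b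
        · exact .inl (a.trans b)
        · exact .inl (b.1 ▸ a)
        · exact .inl (a.1 ▸ b)
        · refine .inr ⟨a.1.trans b.1, a.2.tail ⟨a.1 ▸ b.2, ?_⟩⟩
          have := q.2
          rwa [← b.1, ← a.1] at this
    exact hcol _ v ((this v q).resolve_left (lt_irrefl _)).2
  · refine hs.ge.trans (ciSup_le' fun i => (hη i).le.trans ?_)
    obtain ⟨T, col, e, hp⟩ := opt (D := E) fun a h => h.1.ne rfl
    refine e ▸ le (col := col) fun v q => hp v (mo q fun a b h => ⟨⟨(hD _).1 _ _ h.1.2.2, ?_⟩, h.2⟩)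
    rw [hr i a h.1.1, hr i b h.1.2.1]
    exact .inr ⟨rfl, h.1.2.2⟩

end Pool.Agent.Results.MP_6967ea_co.NotInacc
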